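import Pool.Agent.Helper27.BG.St1
import Pool.Agent.Helper90.MT.LossP
import Pool.Agent.Helper90.MT.Lam

/-!
# Project BG, module TV2: the square of the marginal as a sum over tuples
-/

set_option autoImplicit false
set_option linter.unusedSectionVars false

noncomputable section

namespace Pool.Agent.Helper27.BG

open Finset
open Pool.Agent.Helper90.MT (lam mat wt szA prt szU VV DD piDD Ok EqD Avd HH Ytil)
open Pool.Agent.Helper90.MT.LowAux

namespace TV2

variable {α ι : Type} [Fintype α] [DecidableEq α] [Fintype ι] [DecidableEq ι]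

/-- the summand on extended tuples -/
def PH (m : ι) (G φ : (ι → ℕ) → ℝ) (y : Option ι → ℕ) : ℝ :=
  φ (Function.update (fun h => y (some h)) m 1) *
    (G (fun h => y (some h)) * G (Function.update (fun h => y (some h)) m (y none)))

lemma PH_abs (m : ι) (G φ : (ι → ℕ) → ℝ) (B b : ℝ) (hB : 0 ≤ B) (hb : 0 ≤ b)
    (hG : ∀ x, |G x| ≤ B) (hφ : ∀ x, |φ x| ≤ b) (y : Option ι → ℕ) :
    |PH m G φ y| ≤ b * B ^ 2 := by
  rw [PH, abs_mul, abs_mul, sq]
  exact mul_le_mul (hφ _) (mul_le_mul (hG _) (hG _) (abs_nonneg _) hB)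
    (mul_nonneg (abs_nonneg _) (abs_nonneg _)) hb

lemma prod_upd (m : ι) (x : ι → ℕ) (hx : x m = 1) (c : ℕ) :
    ∏ h, ((Function.update x m c h : ℕ) : ℝ) = c * ∏ h, (x h : ℝ) := by
  rw [← Finset.mul_prod_erase univ _ (Finset.mem_univ m),
    ← Finset.mul_prod_erase univ (fun h => (x h : ℝ)) (Finset.mem_univ m)]
  simp only [Function.update_self, hx, Nat.cast_one, one_mul]
  congr 1
  refine Finset.prod_congr rfl fun h hh => ?_
  rw [Function.update_of_ne (Finset.ne_of_mem_erase hh)]

/-- the right hand side as a sum over extended tuples -/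
lemma right_eq (pr : α → ℕ) (m : ι) (G φ : (ι → ℕ) → ℝ) :
    ∑ x ∈ (piDD ι pr).filter (fun x => x m = 1),
      φ x * (∑ c ∈ DD pr, G (Function.update x m c) / c) ^ 2 / ∏ h, (x h : ℝ) =
    ∑ y ∈ piDD (Option ι) pr, PH m G φ y / ∏ k, (y k : ℝ) := by
  classical
  have h1 : ∀ x : ι → ℕ,
      φ x * (∑ c ∈ DD pr, G (Function.update x m c) / c) ^ 2 / ∏ h, (x h : ℝ) =
      ∑ t ∈ DD pr ×ˢ DD pr, φ x * ((G (Function.update x m t.1) / t.1) *
        (G (Function.update x m t.2) / t.2)) / ∏ h, (x h : ℝ) := by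
    intro x
    rw [sq, Finset.sum_mul_sum, Finset.mul_sum, Finset.sum_div, Finset.sum_product]
    refine Finset.sum_congr rfl fun c _ => ?_
    rw [Finset.mul_sum, Finset.sum_div]
  rw [Finset.sum_congr rfl (fun x _ => h1 x)]
  set A := (piDD ι pr).filter (fun x => x m = 1) with hA
  have h2 := Finset.sum_product A (DD pr ×ˢ DD pr)
    (fun u : (ι → ℕ) × (ℕ × ℕ) => φ u.1 * ((G (Function.update u.1 m u.2.1) / u.2.1) *
        (G (Function.update u.1 m u.2.2) / u.2.2)) / ∏ h, (u.1 h : ℝ))
  rw [← h2]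
  have hmA : ∀ x : ι → ℕ, x ∈ A ↔ (∀ h, x h ∈ DD pr) ∧ x m = 1 := by
    intro x; rw [hA, Finset.mem_filter, piDD, Fintype.mem_piFinset]
  refine Finset.sum_nbij'
    (fun u k => Option.elim k u.2.2 (Function.update u.1 m u.2.1))
    (fun y => (Function.update (fun h => y (some h)) m 1, (y (some m), y none)))
    ?_ ?_ ?_ ?_ ?_
  · rintro ⟨x, c, c'⟩ ht
    rw [Finset.mem_product, Finset.mem_product] at ht
    obtain ⟨hx, hc, hc'⟩ := ht
    simp only at hx hc hc'
    rw [hmA] at hx
    rw [piDD, Fintype.mem_piFinset]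
    rintro (_ | h)
    · exact hc'
    · simp only [Option.elim_some]
      by_cases hh : h = m
      · subst hh; rw [Function.update_self]; exact hc
      · rw [Function.update_of_ne hh]; exact hx.1 h
  · intro y hy
    rw [piDD, Fintype.mem_piFinset] at hy
    rw [Finset.mem_product, Finset.mem_product]
    refine ⟨?_, hy _, hy _⟩
    rw [hmA]
    refine ⟨fun h => ?_, by simp⟩
    by_cases hh : h = m
    · subst hh; simp only [Function.update_self]; exact one_mem_DD pr
    · simp only [Function.update_of_ne hh]; exact hy _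
  · rintro ⟨x, c, c'⟩ ht
    rw [Finset.mem_product, Finset.mem_product] at ht
    obtain ⟨hx, hc, hc'⟩ := ht
    simp only at hx hc hc'
    rw [hmA] at hx
    simp only [Option.elim_some, Option.elim_none, Function.update_self, Prod.mk.injEq, and_true]
    funext h
    by_cases hh : h = m
    · subst hh; rw [Function.update_self, hx.2]
    · rw [Function.update_of_ne hh, Function.update_of_ne hh]
  · intro y hy
    funext k
    rcases k with _ | h
    · simp
    · simp only [Option.elim_some]
      by_cases hh : h = m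
      · subst hh; rw [Function.update_self]
      · rw [Function.update_of_ne hh, Function.update_of_ne hh]
  · rintro ⟨x, c, c'⟩ ht
    rw [Finset.mem_product, Finset.mem_product] at ht
    obtain ⟨hx, hc, hc'⟩ := ht
    simp only at hx hc hc'
    rw [hmA] at hx
    simp only [PH, Option.elim_some, Option.elim_none]
    rw [Fintype.prod_option]
    simp only [Option.elim_some, Option.elim_none]
    have e0 : (fun h => Function.update x m c h) = Function.update x m c := rfl
    have e1 : Function.update (Function.update x m c) m 1 = x := by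
      rw [Function.update_idem, ← hx.2, Function.update_eq_self]
    rw [e0, e1, Function.update_idem, prod_upd m x hx.2 c]
    simp only [div_eq_mul_inv, mul_inv]
    ring

/-- the family of sets of a triple -/
def jj (m : ι) (t : (α → Option ι) × (α → Option ι) × (α → Option ι)) (i : α) :
    Finset (Option ι) := by
  classical
  exact univ.filter (fun k => (k = none ∧ t.2.2 i = some m) ∨ ∃ h, k = some h ∧ t.2.1 i = some h)

lemma none_jj (m : ι) (t : (α → Option ι) × (α → Option ι) × (α → Option ι)) (i : α) :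
    none ∈ jj m t i ↔ t.2.2 i = some m := by
  simp [jj]

lemma some_jj (m : ι) (t : (α → Option ι) × (α → Option ι) × (α → Option ι)) (i : α) (h : ι) :
    some h ∈ jj m t i ↔ t.2.1 i = some h := by
  simp [jj]

/-- the conditions on a triple -/
def okt (m : ι) (t : (α → Option ι) × (α → Option ι) × (α → Option ι)) : Prop :=
  Avd {m} t.1 ∧
  (∀ i, (t.1 i ≠ none → t.2.1 i = t.1 i) ∧
    (t.1 i = none → ∀ h, t.2.1 i = some h → h ∈ ({m} : Finset ι))) ∧
  (∀ i, (t.1 i ≠ none → t.2.2 i = t.1 i) ∧
    (t.1 i = none → ∀ h, t.2.2 i = some h → h ∈ ({m} : Finset ι)))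

lemma sec_ok (m : ι) {ω : α → Finset (Option ι)} (hg : GG m ω) : okt m (sec m ω) := by
  refine ⟨?_, fun i => cond_c (hg i), fun i => cond_d (hg i)⟩
  intro i h hh
  rw [Finset.mem_singleton] at hh
  intro h1
  exact ((aL_iff (hg i) h).1 h1).1 hh

lemma jj_GG (m : ι) {t : (α → Option ι) × (α → Option ι) × (α → Option ι)} (ht : okt m t) :
    GG m (jj m t) := by
  obtain ⟨h1, h2, h3⟩ := ht
  have key : ∀ i h, t.2.2 i = some m → t.2.1 i = some h → h = m := by
    intro i h hd hc
    by_cases ha : t.1 i = none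
    · exact Finset.mem_singleton.1 ((h2 i).2 ha h hc)
    · exact absurd (((h3 i).1 ha).symm.trans hd) (h1 i m (Finset.mem_singleton_self m))
  intro i k hk k' hk' hne
  rcases k with _ | h
  · rcases k' with _ | h'
    · exact absurd rfl hne
    · rw [none_jj] at hk
      rw [some_jj] at hk'
      right
      exact ⟨rfl, by rw [key i h' hk hk']⟩
  · rcases k' with _ | h'
    · rw [none_jj] at hk'
      rw [some_jj] at hk
      left
      exact ⟨by rw [key i h hk' hk], rfl⟩
    · rw [some_jj] at hk hk'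
      exact absurd (hk.symm.trans hk') hne

lemma sec_jj (m : ι) {t : (α → Option ι) × (α → Option ι) × (α → Option ι)} (ht : okt m t) :
    sec m (jj m t) = t := by
  have hG := jj_GG m ht
  obtain ⟨h1, h2, h3⟩ := ht
  have ea : ∀ i h, aL m (jj m t i) = some h ↔ t.1 i = some h := by
    intro i h
    rw [aL_iff (hG i), some_jj]
    constructor
    · rintro ⟨hne, hc⟩
      by_cases ha : t.1 i = none
      · exact absurd (Finset.mem_singleton.1 ((h2 i).2 ha h hc)) hne
      · rw [← (h2 i).1 ha]; exact hc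
    · intro ha
      refine ⟨fun hm => h1 i h (Finset.mem_singleton.2 hm) ha, ?_⟩
      rw [(h2 i).1 (by rw [ha]; simp), ha]
  have ec : ∀ i h, cL m (jj m t i) = some h ↔ t.2.1 i = some h := by
    intro i h
    rw [cL_iff (hG i), some_jj]
  have ed : ∀ i h, dL m (jj m t i) = some h ↔ t.2.2 i = some h := by
    intro i h
    by_cases hm : h = m
    · subst hm
      rw [dL_iff_m (hG i), none_jj]
    · rw [dL_iff_ne (hG i) hm, some_jj]
      constructor
      · intro hc
        by_cases ha : t.1 i = none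
        · exact absurd (Finset.mem_singleton.1 ((h2 i).2 ha h hc)) hm
        · rw [(h3 i).1 ha, ← (h2 i).1 ha]; exact hc
      · intro hd
        by_cases ha : t.1 i = none
        · exact absurd (Finset.mem_singleton.1 ((h3 i).2 ha h hd)) hm
        · rw [(h2 i).1 ha, ← (h3 i).1 ha]; exact hd
  have e1 : (fun i => aL m (jj m t i)) = t.1 := funext fun i => Option.ext fun h => ea i h
  have e2 : (fun i => cL m (jj m t i)) = t.2.1 := funext fun i => Option.ext fun h => ec i h
  have e3 : (fun i => dL m (jj m t i)) = t.2.2 := funext fun i => Option.ext fun h => ed i h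
  rw [sec, e1, e2, e3]

lemma prt_a (pr : α → ℕ) {m : ι} {ω : α → Finset (Option ι)} (hg : GG m ω) :
    prt pr (fun i => aL m (ω i)) =
      Function.update (fun h => xof pr ω (some h)) m 1 := by
  funext h
  by_cases hh : h = m
  · subst hh
    rw [Function.update_self, prt]
    refine Finset.prod_eq_one fun i _ => ?_
    rw [if_neg]
    intro h1
    exact ((aL_iff (hg i) h).1 h1).1 rfl
  · rw [Function.update_of_ne hh, prt, xof]
    refine Finset.prod_congr rfl fun i _ => ?_
    have : aL m (ω i) = some h ↔ some h ∈ ω i := by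
      rw [aL_iff (hg i)]
      exact ⟨fun h => h.2, fun h => ⟨hh, h⟩⟩
    simp only [this]

open Classical in
/-- the term of a triple -/
def LT (pr : α → ℕ) (m : ι) (G φ : (ι → ℕ) → ℝ)
    (t : (α → Option ι) × (α → Option ι) × (α → Option ι)) : ℝ :=
  if Avd {m} t.1 then
    φ (prt pr t.1) / szA pr t.1 * (tt pr m G t.1 t.2.1 * tt pr m G t.1 t.2.2) else 0

lemma left_eq (pr : α → ℕ) (m : ι) (G φ : (ι → ℕ) → ℝ) :
    ∑ a, φ (prt pr a) * Vm pr m (fun a => G (prt pr a)) a ^ 2 / szA pr a =
      ∑ t, LT pr m G φ t := by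
  classical
  rw [Fintype.sum_prod_type]
  refine Finset.sum_congr rfl fun a _ => ?_
  rw [Fintype.sum_prod_type]
  by_cases ha : Avd {m} a
  · have hV : Vm pr m (fun a => G (prt pr a)) a = ∑ c, tt pr m G a c := by
      rw [Vm, if_pos ha]; rfl
    rw [hV, sq, Finset.sum_mul_sum, mul_div_right_comm, Finset.mul_sum]
    refine Finset.sum_congr rfl fun c _ => ?_
    rw [Finset.mul_sum]
    refine Finset.sum_congr rfl fun d _ => ?_
    rw [LT, if_pos ha]
  · have hV : Vm pr m (fun a => G (prt pr a)) a = 0 := by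
      rw [Vm, if_neg ha]
    rw [hV]
    simp only [LT, if_neg ha]
    simp

lemma LT_ne (pr : α → ℕ) (m : ι) (G φ : (ι → ℕ) → ℝ)
    (t : (α → Option ι) × (α → Option ι) × (α → Option ι)) (h : LT pr m G φ t ≠ 0) :
    okt m t := by
  classical
  rw [LT] at h
  by_cases ha : Avd {m} t.1
  · rw [if_pos ha] at h
    have h2 := right_ne_zero_of_mul h
    have hc := left_ne_zero_of_mul h2
    have hd := right_ne_zero_of_mul h2
    refine ⟨ha, ?_, ?_⟩
    · by_contra hn
      rw [tt, if_neg hn] at hc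
      exact hc rfl
    · by_contra hn
      rw [tt, if_neg hn] at hd
      exact hd rfl
  · rw [if_neg ha] at h
    exact absurd rfl h

lemma local_eq {m : ι} {s : Finset (Option ι)} (hg : Gd m s) (p : ℝ) :
    (∏ k, if k ∈ s then 1 / p else 1) =
      (if aL m s = none then 1 else p)⁻¹ * ((if aL m s = none ∧ cL m s ≠ none then 1 / p else 1) *
        (if aL m s = none ∧ dL m s ≠ none then 1 / p else 1)) := by
  by_cases hex : ∃ h, h ≠ m ∧ some h ∈ s
  · obtain ⟨h, hh, hs⟩ := hex
    have ha : aL m s = some h := (aL_iff hg h).2 ⟨hh, hs⟩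
    rw [ha, hg.not_mem hh hs]
    simp
  · have ha : aL m s = none := by
      rw [Option.eq_none_iff_forall_ne_some]
      intro h h1
      exact hex ⟨h, (aL_iff hg h).1 h1⟩
    have hc : cL m s ≠ none ↔ some m ∈ s := by
      rw [cL, ha]; split_ifs with h <;> simp [h]
    have hd : dL m s ≠ none ↔ none ∈ s := by
      rw [dL, ha]; split_ifs with h <;> simp [h]
    rw [ha]
    simp only [true_and, if_true, inv_one, one_mul]
    rw [Fintype.prod_option, mul_comm]
    have h2 : (∏ h : ι, if some h ∈ s then 1 / p else 1) =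
        if some m ∈ s then 1 / p else 1 := by
      refine Finset.prod_eq_single m (fun h _ hh => ?_) (by simp)
      rw [if_neg]
      intro h3
      exact hex ⟨h, hh, h3⟩
    rw [h2]
    simp only [hc, hd]

lemma szA_cast (pr : α → ℕ) (c : α → Option ι) :
    (szA pr c : ℝ) = ∏ i, if c i = none then 1 else (pr i : ℝ) := by
  unfold szA
  push_cast
  refine prod_congr rfl fun i _ => ?_
  split_ifs <;> simp

lemma LT_sec (pr : α → ℕ) (m : ι) (G φ : (ι → ℕ) → ℝ)
    {ω : α → Finset (Option ι)} (hg : GG m ω) :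
    LT pr m G φ (sec m ω) = WW pr ω * PH m G φ (xof pr ω) := by
  classical
  have e1 : tt pr m G (fun i => aL m (ω i)) (fun i => cL m (ω i)) =
      (∏ i, if aL m (ω i) = none ∧ cL m (ω i) ≠ none then 1 / (pr i : ℝ) else 1) *
        G (fun h => xof pr ω (some h)) := by
    rw [tt, if_pos (fun i => cond_c (hg i)), prt_c pr hg]
  have e2 : tt pr m G (fun i => aL m (ω i)) (fun i => dL m (ω i)) =
      (∏ i, if aL m (ω i) = none ∧ dL m (ω i) ≠ none then 1 / (pr i : ℝ) else 1) *
        G (Function.update (fun h => xof pr ω (some h)) m (xof pr ω none)) := by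
    rw [tt, if_pos (fun i => cond_d (hg i)), prt_d pr hg]
  have e3 : WW pr ω = (szA pr (fun i => aL m (ω i)) : ℝ)⁻¹ *
      ((∏ i, if aL m (ω i) = none ∧ cL m (ω i) ≠ none then 1 / (pr i : ℝ) else 1) *
      (∏ i, if aL m (ω i) = none ∧ dL m (ω i) ≠ none then 1 / (pr i : ℝ) else 1)) := by
    rw [WW, szA_cast, ← Finset.prod_inv_distrib, ← Finset.prod_mul_distrib,
      ← Finset.prod_mul_distrib]
    exact Finset.prod_congr rfl fun i _ => local_eq (hg i) _
  have ha : Avd {m} (sec m ω).1 := (sec_ok m hg).1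
  rw [LT, if_pos ha]
  simp only [sec]
  rw [e1, e2, e3, PH, prt_a pr hg]
  ring

lemma left_eq' (pr : α → ℕ) (m : ι) (G φ : (ι → ℕ) → ℝ) :
    (open Classical in
    ∑ a, φ (prt pr a) * Vm pr m (fun a => G (prt pr a)) a ^ 2 / szA pr a =
      ∑ ω ∈ (univ : Finset (α → Finset (Option ι))).filter (fun ω => GG m ω),
        WW pr ω * PH m G φ (xof pr ω)) := by
  classical
  rw [left_eq]
  have h1 : ∑ ω ∈ (univ : Finset (α → Finset (Option ι))).filter (fun ω => GG m ω),
        WW pr ω * PH m G φ (xof pr ω) =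
      ∑ ω ∈ (univ : Finset (α → Finset (Option ι))).filter (fun ω => GG m ω),
        LT pr m G φ (sec m ω) :=
    Finset.sum_congr rfl fun ω hω => (LT_sec pr m G φ (Finset.mem_filter.1 hω).2).symm
  rw [h1, ← Finset.sum_image (f := fun t => LT pr m G φ t) (g := sec m)]
  · symm
    refine Finset.sum_subset (Finset.subset_univ _) fun t _ ht => ?_
    by_contra hne
    have hok := LT_ne pr m G φ t hne
    exact ht (Finset.mem_image.2 ⟨jj m t,
      Finset.mem_filter.2 ⟨Finset.mem_univ _, jj_GG m hok⟩, sec_jj m hok⟩)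
  · intro ω hω ω' hω' h
    exact sec_inj m (Finset.mem_filter.1 hω).2 (Finset.mem_filter.1 hω').2 h

section Tot
variable {κ : Type} [Fintype κ] [DecidableEq κ]

lemma sum_WW (pr : α → ℕ) :
    ∑ ω : α → Finset κ, WW pr ω = ∏ i, (1 + 1 / (pr i : ℝ)) ^ Fintype.card κ := by
  have h := Finset.prod_univ_sum (fun _ : α => (univ : Finset (Finset κ)))
    (fun (i : α) (s : Finset κ) => ∏ k, if k ∈ s then 1 / (pr i : ℝ) else 1)
  rw [Fintype.piFinset_univ] at h
  have h' : ∑ ω : α → Finset κ, WW pr ω =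
      ∑ x : α → Finset κ, ∏ i, ∏ k, (if k ∈ x i then 1 / (pr i : ℝ) else 1) := rfl
  rw [h', ← h]
  refine Finset.prod_congr rfl fun i _ => ?_
  simp only [local_pow]
  have := Fintype.sum_pow_mul_eq_add_pow κ (1 / (pr i : ℝ)) 1
  simp only [one_pow, mul_one] at this
  rw [this, add_comm]

lemma sum_WW_one (pr : α → ℕ) (hκ : 0 < Fintype.card κ) :
    ∑ ω ∈ (univ : Finset (α → Finset κ)).filter (fun ω => ∀ i, #(ω i) ≤ 1), WW pr ω =
      ∏ i, (1 + (Fintype.card κ : ℝ) / pr i) := by
  classical
  have h := Finset.prod_univ_sum (fun _ : α => (univ : Finset (Finset κ)).filter (fun s => #s ≤ 1))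
    (fun (i : α) (s : Finset κ) => ∏ k, if k ∈ s then 1 / (pr i : ℝ) else 1)
  have h0 : (univ : Finset (α → Finset κ)).filter (fun ω => ∀ i, #(ω i) ≤ 1) =
      Fintype.piFinset (fun _ : α => (univ : Finset (Finset κ)).filter (fun s => #s ≤ 1)) := by
    ext ω
    simp [Fintype.mem_piFinset]
  have h' : ∑ ω ∈ (univ : Finset (α → Finset κ)).filter (fun ω => ∀ i, #(ω i) ≤ 1), WW pr ω =
      ∑ x ∈ (univ : Finset (α → Finset κ)).filter (fun ω => ∀ i, #(ω i) ≤ 1),
        ∏ i, ∏ k, (if k ∈ x i then 1 / (pr i : ℝ) else 1) := rfl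
  rw [h', h0, ← h]
  refine Finset.prod_congr rfl fun i _ => ?_
  simp only [local_pow]
  set q : ℝ := 1 / (pr i : ℝ) with hq
  rw [Finset.sum_filter]
  have h2 := Finset.sum_powerset_apply_card (x := (univ : Finset κ))
    (fun n : ℕ => if n ≤ 1 then q ^ n else 0)
  rw [Finset.powerset_univ] at h2
  rw [h2, Finset.card_univ]
  obtain ⟨n, hn⟩ : ∃ n, Fintype.card κ = n + 1 := ⟨Fintype.card κ - 1, by omega⟩
  rw [hn, Finset.sum_range_succ', Finset.sum_range_succ']
  have h3 : ∀ k ∈ range n, (n + 1).choose (k + 1 + 1) •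
      (if k + 1 + 1 ≤ 1 then q ^ (k + 1 + 1) else 0) = 0 := by
    intro k _
    rw [if_neg (by omega), smul_zero]
  rw [Finset.sum_eq_zero h3]
  simp only [zero_add, le_refl, if_true, Nat.choose_one_right, pow_one, Nat.choose_zero_right,
    zero_le, pow_zero, nsmul_eq_mul, Nat.cast_one, mul_one]
  rw [hq]
  ring

end Tot

lemma one_GG (m : ι) (ω : α → Finset (Option ι)) (h : ∀ i, #(ω i) ≤ 1) : GG m ω := by
  intro i k hk k' hk' hne
  exact absurd (Finset.card_le_one.1 (h i) k hk k' hk') hne

end TV2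

open TV2 in
theorem hTV2 : StTV2 := by
  intro α ι _ _ _ _ pr m G φ B b hp hinj hB hb hG hφ
  classical
  rw [right_eq, sum_piDD pr hp hinj, left_eq']
  have h1 : ∑ ω : α → Finset (Option ι), PH m G φ (xof pr ω) / ∏ k, (xof pr ω k : ℝ) =
      ∑ ω : α → Finset (Option ι), WW pr ω * PH m G φ (xof pr ω) :=
    Finset.sum_congr rfl fun ω _ => WW_eq pr ω _
  rw [h1, ← Finset.sum_filter_add_sum_filter_not (univ : Finset (α → Finset (Option ι)))
    (fun ω => GG m ω) (fun ω => WW pr ω * PH m G φ (xof pr ω)), sub_add_cancel_left, abs_neg]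
  have hbB : 0 ≤ b * B ^ 2 := by positivity
  refine (Finset.abs_sum_le_sum_abs _ _).trans ?_
  have h2 : ∀ ω ∈ (univ : Finset (α → Finset (Option ι))).filter (fun ω => ¬ GG m ω),
      |WW pr ω * PH m G φ (xof pr ω)| ≤ b * B ^ 2 * WW pr ω := by
    intro ω _
    rw [abs_mul, abs_of_nonneg (WW_nonneg pr ω), mul_comm]
    exact mul_le_mul_of_nonneg_right (PH_abs m G φ B b hB hb hG hφ _) (WW_nonneg pr ω)
  refine (Finset.sum_le_sum h2).trans ?_
  rw [← Finset.mul_sum]
  refine mul_le_mul_of_nonneg_left ?_ hbB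
  have h3 := sum_WW (κ := Option ι) pr
  have h4 := sum_WW_one (κ := Option ι) pr Fintype.card_pos
  rw [← Finset.sum_filter_add_sum_filter_not (univ : Finset (α → Finset (Option ι)))
    (fun ω => ∀ i, #(ω i) ≤ 1) (fun ω => WW pr ω), h4, Fintype.card_option] at h3
  have h5 : ∑ ω ∈ (univ : Finset (α → Finset (Option ι))).filter (fun ω => ¬ GG m ω), WW pr ω ≤
      ∑ ω ∈ (univ : Finset (α → Finset (Option ι))).filter (fun ω => ¬ ∀ i, #(ω i) ≤ 1),
        WW pr ω := by
    refine Finset.sum_le_sum_of_subset_of_nonneg ?_ (fun ω _ _ => WW_nonneg pr ω)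
    intro ω hω
    rw [Finset.mem_filter] at hω ⊢
    exact ⟨hω.1, fun h => hω.2 (one_GG m ω h)⟩
  rw [Et]
  linarith

end Pool.Agent.Helper27.BG
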